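import Pool.Agent.P.MP_79de8b_nt.All

/-! The Mazur-Rubin conjecture on the variance of modular symbols with a fixed denominator. -/

open Filter Topology ProbabilityTheory CongruenceSubgroup UpperHalfPlane

theorem Pool.Agent.Results.MP_79de8b_nt.VarianceSlopeShift.result
    (E : WeierstrassCurve ℚ) [E.IsElliptic] (N : ℕ) [NeZero N] (f : CuspForm (Gamma0 N) 2)
    (hf : ∀ n : ℕ, (qExpansion 1 f).coeff n = (E.LFunction n : ℤ))
    (Ωp Ωm : ℝ) (_hp : 0 < Ωp) (_hm : 0 < Ωm) :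
    (∃ C : ℝ, ∀ d : ℕ, d ∣ N → ∃ D : ℝ, Tendsto (fun M : ℕ =>
      variance (fun r => (MR.symb f r).re / Ωp) (uniformOn (MR.SigmaSet M)) - C * Real.log M)
      (atTop ⊓ 𝓟 {M | M.gcd N = d}) (𝓝 D)) ∧
    ∃ C : ℝ, ∀ d : ℕ, d ∣ N → ∃ D : ℝ, Tendsto (fun M : ℕ =>
      variance (fun r => (MR.symb f r).im / Ωm) (uniformOn (MR.SigmaSet M)) - C * Real.log M)
      (atTop ⊓ 𝓟 {M | M.gcd N = d}) (𝓝 D) :=
  MR.final_ec MR.fam MR.all_main E N f hf Ωp Ωm
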